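import Pool.Agent.Helper44.RC.M_QUAD2
import Pool.Agent.Helper87.RC.M_SAW
import Pool.Agent.Helper87.RC.M_KER
import Pool.Agent.Helper56.RC.St

/-!
# Project RC: module ASN (Fourier series of the absolute value of the sine)
-/

open MeasureTheory Set Filter Metric

namespace Pool.Agent.Helper2.RC

open Helper49.LT Helper49.RC Helper87.RC Helper44.RC Helper56.RC

theorem nn_neg (n : ℕ) (z : ℂ) : nn n (-z) = (-1) ^ n * nn n z := by
  unfold nn
  rw [norm_neg, map_neg, neg_div, neg_pow]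
  ring

theorem cor_neg (n : ℕ) (p q : ℂ) : cor n (-p) q = (-1) ^ n * cor n p q := by
  unfold cor
  rw [nn_neg, map_mul, map_pow, map_neg, map_one]
  rcases neg_one_pow_eq_or ℂ n with h | h
  · have h' : (-1 : ℝ) ^ n = 1 := by exact_mod_cast h
    rw [h, h']; simp
  · have h' : (-1 : ℝ) ^ n = -1 := by exact_mod_cast h
    rw [h, h']; simp

theorem hASN : StAsn := by
  intro p q
  have h1 := ker_pt hSAW p q
  have h2 := ker_pt hSAW (-p) q
  have h3 := (h1.add h2).mul_left (1 / 2)
  have hs := tSeg p q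
  have h0 : cor 0 p q = ‖p‖ * ‖q‖ := by
    unfold cor
    rw [nn_zero, nn_zero, Complex.conj_ofReal, ← Complex.ofReal_mul, Complex.ofReal_re]
  have hv : 1 / 2 * ((cor 0 p q + cor 1 p q / 2 - kr p q)
      + (cor 0 (-p) q + cor 1 (-p) q / 2 - kr (-p) q))
      = ‖p‖ * ‖q‖ - Real.pi / 2 * |(q * (starRingEnd ℂ) p).im| := by
    rw [cor_neg, cor_neg, h0]
    have : kr (-p) q = Real.pi * |(q * (starRingEnd ℂ) p).im| - kr p q := by linarith
    rw [this]
    ring
  rw [hv] at h3
  have hinj : Function.Injective (fun k : ℕ => 2 * k) := fun a b h => by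
    simpa using h
  have hz : ∀ n, n ∉ Set.range (fun k : ℕ => 2 * k) →
      1 / 2 * (2 * cor (n + 2) p q / (((n : ℝ) + 2) ^ 2 - 1)
        + 2 * cor (n + 2) (-p) q / (((n : ℝ) + 2) ^ 2 - 1)) = 0 := by
    intro n hn
    have ho : Odd n := by
      rcases Nat.even_or_odd n with he | ho
      · exact absurd ⟨n / 2, by simpa using Nat.two_mul_div_two_of_even he⟩ hn
      · exact ho
    rw [cor_neg, pow_add, ho.neg_one_pow]
    ring
  have h4 := (hinj.hasSum_iff hz).2 h3
  refine h4.congr_fun ?_ |> fun h => h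
  intro k
  have he : (-1 : ℝ) ^ (2 * k + 2) = 1 := Even.neg_one_pow ⟨k + 1, by ring⟩
  show 2 * cor (2 * k + 2) p q / ((2 * (k : ℝ) + 2) ^ 2 - 1) = _
  simp only [Function.comp]
  rw [cor_neg, he]
  push_cast
  ring

end Pool.Agent.Helper2.RC
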